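import Pool.Agent.W593.IR.Stm2

/-!
# IR2-LMSIB: the i.i.d. inequality gives the interface
-/

set_option autoImplicit false

namespace Pool.Agent.W565.IR

open Finset Pool.Agent.W890.SF Filter Topology Pool.Agent.W593.IR

theorem mv_cont (k : ℕ) : Continuous (mv k) := by
  unfold mv
  fun_prop

theorem NG_mono {V : Type} [Fintype V] (y z : V → ℝ) (k : ℕ) (h : ∀ v, y v ≤ z v) :
    NG y k ≤ NG z k := by
  unfold NG
  apply Set.ncard_le_ncard _ (Set.toFinite _)
  intro f hf
  exact le_trans hf (Finset.sum_le_sum fun i _ => h (f i))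

theorem lmsib : S_LMSIB := by
  intro k hk hL x hx hkx ε hε
  have hk0 : (0 : ℝ) < (k : ℝ) := by
    have : 0 < k := by omega
    exact_mod_cast this
  have hc := (mv_cont k).continuousAt (x := x)
  rw [Metric.continuousAt_iff] at hc
  obtain ⟨δ, hδ, hc⟩ := hc ε hε
  have hgap : 0 < 1 / (k : ℝ) - x := by
    rw [sub_pos, lt_div_iff₀ hk0]
    linarith
  refine ⟨min (δ / 2) ((1 / (k : ℝ) - x) / 2), lt_min (by linarith) (by linarith), ?_⟩
  intro V _ _ y s hy hs hsV _ hsum hsη
  have hN : 0 < Fintype.card V := lt_of_lt_of_le hs hsV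
  have : Nonempty V := Fintype.card_pos_iff.1 hN
  have hN0 : (0 : ℝ) < (Fintype.card V : ℝ) := by exact_mod_cast hN
  set η := min (δ / 2) ((1 / (k : ℝ) - x) / 2) with hη
  have hη1 : η ≤ δ / 2 := min_le_left _ _
  have hη2 : η ≤ (1 / (k : ℝ) - x) / 2 := min_le_right _ _
  have hη0 : 0 < η := lt_min (by linarith) (by linarith)
  set N : ℝ := (Fintype.card V : ℝ) with hNdef
  set Y : ℝ := ∑ v, y v with hY
  have h1 : Y / N ≤ x + η := by
    rw [div_le_iff₀ hN0]
    have h2 : (k : ℝ) * Y ≤ (k : ℝ) * ((x + η) * N) := by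
      calc (k : ℝ) * Y ≤ s := hsum
        _ ≤ k * (x + η) * N := hsη
        _ = (k : ℝ) * ((x + η) * N) := by ring
    exact le_of_mul_le_mul_left h2 hk0
  set x' : ℝ := max (Y / N) x with hx'
  have hx1 : x ≤ x' := le_max_right _ _
  have hx2 : x' ≤ x + η := max_le h1 (by linarith)
  have hx3 : Y / N ≤ x' := le_max_left _ _
  have h3 : (k : ℝ) * x' < 1 := by
    have h4 : x' < 1 / (k : ℝ) := by linarith
    rw [lt_div_iff₀ hk0] at h4
    linarith
  have h5 := hL x' (by linarith) h3 V (fun v => y v + (x' - Y / N))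
    (fun v => add_nonneg (hy v) (by linarith)) (by
      rw [Finset.sum_add_distrib, Finset.sum_const, Finset.card_univ, nsmul_eq_mul]
      rw [← hY, ← hNdef]
      field_simp
      ring)
  have h6 : (NG y k : ℝ) ≤ (NG (fun v => y v + (x' - Y / N)) k : ℝ) := by
    exact_mod_cast NG_mono y _ k (fun v => by linarith)
  have h7 : mv k x' ≤ mv k x + ε := by
    have h8 : dist x' x < δ := by
      rw [Real.dist_eq, abs_of_nonneg (by linarith)]
      linarith
    have h9 := hc h8
    rw [Real.dist_eq] at h9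
    have h10 := le_abs_self (mv k x' - mv k x)
    linarith
  calc (NG y k : ℝ) ≤ (NG (fun v => y v + (x' - Y / N)) k : ℝ) := h6
    _ ≤ N ^ k * mv k x' := h5
    _ ≤ N ^ k * (mv k x + ε) := mul_le_mul_of_nonneg_left h7 (by positivity)

end Pool.Agent.W565.IR
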